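import Pool.Agent.TH68.Final

set_option autoImplicit false

/-! There is a simple `T₀`-group. -/

namespace Pool.Agent.Results.MP_bd8d5e_al.SimpleTZero

open Pool.Agent.TH68

theorem result : ∃ (G : Type) (_ : Group G), IsSimpleGroup G ∧ ∃ i : G, IsT0 G i := main

end Pool.Agent.Results.MP_bd8d5e_al.SimpleTZero
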